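import Mathlib

set_option autoImplicit false
open scoped Pointwise Cardinal
open Cardinal Set

namespace Pool.Agent.Helper12.LargePart

/-- Greedy choice of distinct representatives. -/
theorem greedy {Q X : Type} (S : Q → Set X) (h : ∀ q, #Q ≤ #(S q)) :
    ∃ r : Q → X, Function.Injective r ∧ ∀ q, r q ∈ S q := by
  classical
  obtain ⟨e⟩ : Nonempty (Q ≃ (#Q).ord.ToType) := Cardinal.eq.1 (by simp)
  have key : ∀ (q : Q) (f : ∀ y : Q, e y < e q → X),
      ∃ x, x ∈ S q ∧ ∀ y (hy : e y < e q), f y hy ≠ x := by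
    intro q f
    have hlt : #{y : Q // e y < e q} < #Q := by
      have h1 : #{y : Q // e y < e q} ≤ #(Iio (e q)) := by
        refine Cardinal.mk_le_of_injective (f := fun y => (⟨e y.1, y.2⟩ : Iio (e q))) ?_
        intro a b hab
        exact Subtype.ext (e.injective (congrArg Subtype.val hab))
      exact lt_of_le_of_lt h1 (mk_Iio_toType_ord_lt (e q))
    have hT : #(range (fun y : {y : Q // e y < e q} => f y.1 y.2)) < #(S q) :=
      lt_of_le_of_lt mk_range_le (lt_of_lt_of_le hlt (h q))
    by_contra hcon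
    push Not at hcon
    have hsub : S q ⊆ range (fun y : {y : Q // e y < e q} => f y.1 y.2) := by
      intro x hx
      obtain ⟨y, hy, hxy⟩ := hcon x hx
      exact ⟨⟨y, hy⟩, hxy⟩
    exact absurd (Cardinal.mk_le_mk_of_subset hsub) (not_le.2 hT)
  have wf : WellFounded (fun a b : Q => e a < e b) := InvImage.wf e wellFounded_lt
  let r : Q → X := wf.fix (fun q f => (key q f).choose)
  have hr : ∀ q, r q = (key q (fun y _ => r y)).choose := fun q => wf.fix_eq _ q
  have hr1 : ∀ q, r q ∈ S q := by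
    intro q
    rw [hr q]
    exact (key q (fun y _ => r y)).choose_spec.1
  have hr2 : ∀ q y, e y < e q → r y ≠ r q := by
    intro q y hy
    rw [hr q]
    exact (key q (fun y _ => r y)).choose_spec.2 y hy
  refine ⟨r, ?_, hr1⟩
  intro a b hab
  by_contra hne
  rcases lt_trichotomy (e a) (e b) with h1 | h1 | h1
  · exact hr2 b a h1 hab
  · exact hne (e.injective h1)
  · exact hr2 a b h1 hab.symm

/-- Greedy choice, block by block. -/
theorem blockGreedy {Q X : Type} {B : Type*} (S : Q → Set X) (b : Q → B) (b' : X → B)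
    (h1 : ∀ q, ∀ x ∈ S q, b' x = b q) (h2 : ∀ q, #{q' : Q // b q' = b q} ≤ #(S q)) :
    ∃ r : Q → X, Function.Injective r ∧ ∀ q, r q ∈ S q := by
  classical
  have key : ∀ β : B, ∃ r : {q : Q // b q = β} → X,
      Function.Injective r ∧ ∀ q, r q ∈ S q.1 := by
    intro β
    apply greedy (fun q : {q : Q // b q = β} => S q.1)
    rintro ⟨q, rfl⟩
    exact h2 q
  choose r hr1 hr2 using key
  refine ⟨fun q => r (b q) ⟨q, rfl⟩, ?_, fun q => hr2 (b q) ⟨q, rfl⟩⟩
  intro q q' hqq
  simp only at hqq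
  have hb : b q = b q' := by
    rw [← h1 q _ (hr2 (b q) ⟨q, rfl⟩), ← h1 q' _ (hr2 (b q') ⟨q', rfl⟩), hqq]
  have aux : ∀ (β : B) (hβ : b q' = β), r (b q') ⟨q', rfl⟩ = r β ⟨q', hβ⟩ := by
    rintro β rfl
    rfl
  rw [aux (b q) hb.symm] at hqq
  have := hr1 (b q) hqq
  simpa using this

/-- Size of a generated subgroup. -/
theorem card_closure_le {G : Type} [Group G] (s : Set G) (μ : Cardinal.{0})
    (hμ : ℵ₀ ≤ μ) (hs : #s ≤ μ) : #(Subgroup.closure s) ≤ μ := by
  have hsurj : ∀ x ∈ Subgroup.closure s, ∃ l : List (s × Bool),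
      (l.map (fun p => if p.2 then (p.1 : G) else (p.1 : G)⁻¹)).prod = x := by
    intro x hx
    induction hx using Subgroup.closure_induction with
    | mem x hx => exact ⟨[(⟨x, hx⟩, true)], by simp⟩
    | one => exact ⟨[], by simp⟩
    | mul x y _ _ hx hy =>
      obtain ⟨l1, rfl⟩ := hx
      obtain ⟨l2, rfl⟩ := hy
      exact ⟨l1 ++ l2, by simp⟩
    | inv x _ hx =>
      obtain ⟨l, rfl⟩ := hx
      refine ⟨(l.map (fun p => (p.1, !p.2))).reverse, ?_⟩
      rw [List.prod_inv_reverse, List.map_map, List.map_reverse, List.map_map]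
      congr 2
      apply List.map_congr_left
      rintro ⟨a, b⟩ _
      cases b <;> simp
  have h1 : #(Subgroup.closure s) ≤ #(List (s × Bool)) := by
    choose! f hf using hsurj
    refine Cardinal.mk_le_of_injective (f := fun x : Subgroup.closure s => f x.1) ?_
    intro a b hab
    apply Subtype.ext
    rw [← hf a.1 a.2, ← hf b.1 b.2]
    simp only at hab
    rw [hab]
  refine h1.trans ((mk_list_le_max _).trans (max_le hμ ?_))
  rw [mk_prod, lift_id, lift_id]
  calc #s * #Bool ≤ μ * μ := mul_le_mul' hs (le_trans (by simp) hμ)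
    _ = μ := mul_eq_self hμ

end Pool.Agent.Helper12.LargePart
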