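import Pool.Agent.Helper12.G1

set_option autoImplicit false
open scoped Pointwise Cardinal
open Cardinal Set

namespace Pool.Agent.Helper12.LargePart

/-- The set `F y` (if `s = true`) or `y F` (if `s = false`). -/
def cs {G : Type} [Group G] (s : Bool) (F : Set G) (y : G) : Set G :=
  if s = true then (fun f => f * y) '' F else (fun f => y * f) '' F

theorem mk_cs {G : Type} [Group G] (s : Bool) (F : Set G) (y : G) : #(cs s F y) = #F := by
  unfold cs
  split_ifs
  · exact Cardinal.mk_image_eq (mul_left_injective y)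
  · exact Cardinal.mk_image_eq (mul_right_injective y)

theorem mem_cs_self {G : Type} [Group G] (s : Bool) (H : Subgroup G) (y : G) :
    y ∈ cs s (H : Set G) y := by
  unfold cs
  split_ifs
  · exact ⟨1, H.one_mem, by simp⟩
  · exact ⟨1, H.one_mem, by simp⟩

/-- Passing from disjoint sets to a partition. -/
theorem reduction {G : Type} [Group G] (κ : Cardinal.{0}) (hκ : ℵ₀ ≤ κ) (ι : Type) (hι : #ι = κ)
    (F : ι → Set G) (hF : ∀ i, #(F i) < κ) (A : ι → Set G)
    (hA : ∀ i j x, x ∈ A i → x ∈ A j → i = j)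
    (hit : ∀ i (s : Bool) y, ∃ g, g ∈ cs s (F i) y ∧ g ∈ A i) :
    ∃ P : Set (Set G), Setoid.IsPartition P ∧ Cardinal.mk P = κ ∧
      ∀ A ∈ P, (∃ F : Set G, Cardinal.mk F < κ ∧ F * A = Set.univ) ∧
        (∃ F : Set G, Cardinal.mk F < κ ∧ A * F = Set.univ) := by
  classical
  have hne : Nonempty ι := by
    rw [← Cardinal.mk_ne_zero_iff, hι]
    exact (lt_of_lt_of_le aleph0_pos hκ).ne'
  let c : G → ι := fun g => if h : ∃ i, g ∈ A i then h.choose else Classical.choice hne
  have hc : ∀ i g, g ∈ A i → c g = i := by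
    intro i g hg
    have h : ∃ i, g ∈ A i := ⟨i, hg⟩
    simp only [c, dif_pos h]
    exact hA _ _ g h.choose_spec hg
  have hsurj : Function.Surjective c := by
    intro i
    obtain ⟨g, -, hg⟩ := hit i true 1
    exact ⟨g, hc i g hg⟩
  refine ⟨range (fun i => c ⁻¹' {i}), ?_, ?_, ?_⟩
  · refine ⟨?_, ?_⟩
    · rintro ⟨i, hi⟩
      obtain ⟨g, hg⟩ := hsurj i
      have : g ∈ c ⁻¹' {i} := hg
      simp only at hi
      rw [hi] at this
      exact this
    · intro g
      refine ⟨c ⁻¹' {c g}, ⟨⟨c g, rfl⟩, rfl⟩, ?_⟩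
      rintro _ ⟨⟨i, rfl⟩, hi⟩
      have : c g = i := hi
      simp [this]
  · rw [← hι]
    apply Cardinal.mk_range_eq
    intro i j hij
    obtain ⟨g, hg⟩ := hsurj i
    have : g ∈ c ⁻¹' {i} := hg
    simp only at hij
    rw [hij] at this
    exact hg.symm.trans this
  · rintro _ ⟨i, rfl⟩
    constructor
    · refine ⟨(F i)⁻¹, ?_, ?_⟩
      · rw [Cardinal.mk_inv]
        exact hF i
      · rw [eq_univ_iff_forall]
        intro y
        obtain ⟨g, hg, hgA⟩ := hit i true y
        simp only [cs, if_true] at hg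
        obtain ⟨f, hf, rfl⟩ := hg
        exact ⟨f⁻¹, by simpa using hf, f * y, hc i _ hgA, by simp⟩
    · refine ⟨(F i)⁻¹, ?_, ?_⟩
      · rw [Cardinal.mk_inv]
        exact hF i
      · rw [eq_univ_iff_forall]
        intro y
        obtain ⟨g, hg, hgA⟩ := hit i false y
        simp only [cs, Bool.false_eq_true, if_false] at hg
        obtain ⟨f, hf, rfl⟩ := hg
        exact ⟨y * f, hc i _ hgA, f⁻¹, by simpa using hf, by simp⟩

end Pool.Agent.Helper12.LargePart
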