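import Pool.Agent.Helper12.G2

set_option autoImplicit false
open scoped Pointwise Cardinal
open Cardinal Set

namespace Pool.Agent.Helper12.LargePart

/-- Representatives of double cosets `M g M`. -/
theorem exists_rep {G : Type} [Group G] (M : Subgroup G) :
    ∃ z : G → G, (∀ g a b, a ∈ M → b ∈ M → z (a * g * b) = z g) ∧
      (∀ g, ∃ a ∈ M, ∃ b ∈ M, g = a * z g * b) := by
  let r : Setoid G :=
    { r := fun g g' => ∃ a ∈ M, ∃ b ∈ M, g' = a * g * b
      iseqv :=
        { refl := fun g => ⟨1, M.one_mem, 1, M.one_mem, by simp⟩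
          symm := by
            rintro g g' ⟨a, ha, b, hb, rfl⟩
            exact ⟨a⁻¹, M.inv_mem ha, b⁻¹, M.inv_mem hb, by group⟩
          trans := by
            rintro g g' g'' ⟨a, ha, b, hb, rfl⟩ ⟨a', ha', b', hb', rfl⟩
            exact ⟨a' * a, M.mul_mem ha' ha, b * b', M.mul_mem hb hb', by group⟩ } }
  refine ⟨fun g => (Quotient.mk r g).out, ?_, ?_⟩
  · intro g a b ha hb
    have : Quotient.mk r (a * g * b) = Quotient.mk r g :=
      Quotient.sound (r.symm ⟨a, ha, b, hb, rfl⟩)
    simp only [this]
  · intro g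
    have h : r.r (Quotient.mk r g).out g := Quotient.mk_out g
    exact h

theorem succ_case {G : Type} [Group G] (lam : Cardinal.{0}) (hl : ℵ₀ ≤ lam)
    (hG : Order.succ lam ≤ #G) :
    ∃ (ι : Type) (F : ι → Set G) (A : ι → Set G), #ι = Order.succ lam ∧
      (∀ i, #(F i) < Order.succ lam) ∧ (∀ i j x, x ∈ A i → x ∈ A j → i = j) ∧
      (∀ i (s : Bool) y, ∃ g, g ∈ cs s (F i) y ∧ g ∈ A i) := by
  classical
  set κ := Order.succ lam with hκdef
  have hlκ : lam < κ := Order.lt_succ lam
  have hκ : ℵ₀ ≤ κ := hl.trans hlκ.le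
  obtain ⟨T, hT⟩ := Cardinal.le_mk_iff_exists_set.1 hG
  obtain ⟨T0, hT0⟩ := Cardinal.le_mk_iff_exists_set.1 (hlκ.le.trans hG)
  set H : Subgroup G := Subgroup.closure T0 with hH
  set K : Subgroup G := Subgroup.closure (T ∪ T0) with hK
  have hHK : H ≤ K := Subgroup.closure_mono subset_union_right
  have cardH : #H = lam := by
    apply le_antisymm (card_closure_le T0 lam hl hT0.le)
    rw [← hT0]
    exact Cardinal.mk_le_mk_of_subset Subgroup.subset_closure
  have cardK : #K = κ := by
    apply le_antisymm
    · apply card_closure_le _ κ hκ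
      refine (mk_union_le _ _).trans ?_
      rw [hT, hT0]
      exact (add_le_add le_rfl hlκ.le).trans (add_eq_self hκ).le
    · rw [← hT]
      exact Cardinal.mk_le_mk_of_subset (subset_union_left.trans Subgroup.subset_closure)
  obtain ⟨z, hz1, hz2⟩ := exists_rep K
  let L : G → Subgroup G := fun x => Subgroup.closure ((K : Set G) ∪ {x})
  have hKL : ∀ x, K ≤ L x := by
    intro x g hg
    exact Subgroup.subset_closure (Or.inl hg)
  have hxL : ∀ x, x ∈ L x := fun x => Subgroup.subset_closure (Or.inr rfl)
  have hyL : ∀ y, y ∈ L (z y) := by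
    intro y
    obtain ⟨a, ha, b, hb, h⟩ := hz2 y
    rw [h, hz1 _ _ _ ha hb]
    have : z (z y) = z y := by
      conv_rhs => rw [h]
      rw [hz1 _ _ _ ha hb]
    rw [this]
    exact (L (z y)).mul_mem ((L (z y)).mul_mem (hKL _ ha) (hxL _)) (hKL _ hb)
  have cardL : ∀ x, #(L x) ≤ κ := by
    intro x
    apply card_closure_le _ κ hκ
    refine (mk_union_le _ _).trans ?_
    refine (add_le_add cardK.le ((mk_singleton x).le.trans (one_le_aleph0.trans hκ))).trans
      (add_eq_self hκ).le
  have hexe : ∀ x : G, ∃ e : κ.ord.ToType → G, ∀ g ∈ L x, ∃ a, e a = g := by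
    intro x
    have h1 : #(L x) ≤ #(κ.ord.ToType) := by
      rw [mk_ord_toType]; exact cardL x
    obtain ⟨φ⟩ := h1
    have : Nonempty (L x) := ⟨1⟩
    refine ⟨fun a => (Function.invFun φ a : L x), ?_⟩
    intro g hg
    refine ⟨φ ⟨g, hg⟩, ?_⟩
    have := Function.leftInverse_invFun φ.injective (⟨g, hg⟩ : L x)
    simp only [this]
  choose e he using hexe
  let N : G → κ.ord.ToType → Subgroup G := fun x a => Subgroup.closure ((H : Set G) ∪ e x '' Iic a)
  have hHN : ∀ x a, H ≤ N x a := by
    intro x a g hg
    exact Subgroup.subset_closure (Or.inl hg)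
  have hNmono : ∀ x a b, a ≤ b → N x a ≤ N x b := by
    intro x a b hab
    exact Subgroup.closure_mono (union_subset_union_right _ (image_mono (Iic_subset_Iic.2 hab)))
  have cardN : ∀ x a, #(N x a) ≤ lam := by
    intro x a
    apply card_closure_le _ lam hl
    refine (mk_union_le _ _).trans ?_
    have h1 : #(e x '' Iic a) ≤ lam := by
      refine mk_image_le.trans ?_
      have h2 : #(Iio a) < κ := mk_Iio_toType_ord_lt a
      have h3 : #(Iio a) ≤ lam := Order.lt_succ_iff.1 h2
      have h4 : (Iic a) ⊆ insert a (Iio a) := by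
        intro b hb
        rcases eq_or_lt_of_le (mem_Iic.1 hb) with h | h
        · exact Or.inl h
        · exact Or.inr h
      refine (mk_le_mk_of_subset h4).trans (mk_insert_le.trans ?_)
      exact (add_le_add h3 (one_le_aleph0.trans hl)).trans (add_eq_self hl).le
    exact (add_le_add cardH.le h1).trans (add_eq_self hl).le
  have hex : ∀ x g, g ∈ L x → ∃ a, g ∈ N x a := by
    intro x g hg
    obtain ⟨a, ha⟩ := he x g hg
    exact ⟨a, Subgroup.subset_closure (Or.inr ⟨a, mem_Iic.2 le_rfl, ha⟩)⟩
  have hρ : ∀ x g, ∃ a : κ.ord.ToType, g ∈ L x → (g ∈ N x a ∧ ∀ b, g ∈ N x b → a ≤ b) := by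
    intro x g
    by_cases hg : g ∈ L x
    · obtain ⟨a, ha⟩ := hex x g hg
      have hne : {a | g ∈ N x a}.Nonempty := ⟨a, ha⟩
      refine ⟨wellFounded_lt.min _ hne, fun _ => ⟨wellFounded_lt.min_mem _ hne, ?_⟩⟩
      intro b hb
      exact not_lt.1 (wellFounded_lt.not_lt_min {a | g ∈ N x a} hb)
    · obtain ⟨a, -⟩ := hex x x (hxL x)
      exact ⟨a, fun h => absurd h hg⟩
  choose ρ hρ' using hρ
  have hρ1 : ∀ x g, g ∈ L x → g ∈ N x (ρ x g) := fun x g hg => (hρ' x g hg).1
  have hρ2 : ∀ x g b, g ∈ L x → g ∈ N x b → ρ x g ≤ b := fun x g b hg => (hρ' x g hg).2 b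
  let F : K → Set G := fun k => Subgroup.closure ((H : Set G) ∪ {(k : G)})
  let home : K × G × Bool → G × κ.ord.ToType := fun q =>
    (z q.2.1, max (ρ (z q.2.1) q.1) (ρ (z q.2.1) q.2.1))
  let b' : G → G × κ.ord.ToType := fun g => (z g, ρ (z g) g)
  let S : K × G × Bool → Set G := fun q => {g | g ∈ cs q.2.2 (F q.1) q.2.1 ∧ b' g = home q}
  obtain ⟨r, hr1, hr2⟩ := blockGreedy S home b' (fun q x hx => hx.2) (by
    rintro ⟨k, y, s⟩
    have up : #{q' : K × G × Bool // home q' = home (k, y, s)} ≤ lam := by
      set x := z y with hx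
      set a := max (ρ x k) (ρ x y) with ha
      have hh : home (k, y, s) = (x, a) := rfl
      rw [hh]
      have hmem : ∀ q' : {q' : K × G × Bool // home q' = (x, a)},
          (q'.1.1 : G) ∈ N x a ∧ q'.1.2.1 ∈ N x a := by
        rintro ⟨⟨k', y', s'⟩, hq⟩
        simp only [home, Prod.mk.injEq] at hq
        obtain ⟨hq1, hq2⟩ := hq
        rw [hq1] at hq2
        have hy' : y' ∈ L x := by rw [← hq1]; exact hyL y'
        constructor
        · exact hNmono x _ _ (hq2 ▸ le_max_left _ _) (hρ1 x k' (hKL x k'.2))
        · exact hNmono x _ _ (hq2 ▸ le_max_right _ _) (hρ1 x y' hy')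
      have hinj : #{q' : K × G × Bool // home q' = (x, a)} ≤ #(N x a × N x a × Bool) := by
        refine Cardinal.mk_le_of_injective (f := fun q' =>
          (⟨q'.1.1, (hmem q').1⟩, ⟨q'.1.2.1, (hmem q').2⟩, q'.1.2.2)) ?_
        rintro ⟨⟨k1, y1, s1⟩, h1⟩ ⟨⟨k2, y2, s2⟩, h2⟩ h12
        simp only [Prod.mk.injEq, Subtype.mk.injEq] at h12
        obtain ⟨h3, h4, h5⟩ := h12
        have := Subtype.ext h3
        subst this h4 h5
        rfl
      refine hinj.trans ?_
      rw [mk_prod, mk_prod, lift_id, lift_id, lift_id]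
      calc #(N x a) * (#(N x a) * #Bool) ≤ lam * (lam * lam) :=
            mul_le_mul' (cardN x a) (mul_le_mul' (cardN x a) (le_trans (by simp) hl))
        _ = lam := by rw [mul_eq_self hl, mul_eq_self hl]
    have low : lam ≤ #(S (k, y, s)) := by
      set x := z y with hx
      have hyLx : y ∈ L x := hyL y
      have hkLx : (k : G) ∈ L x := hKL x k.2
      have hh : home (k, y, s) = (x, max (ρ x k) (ρ x y)) := rfl
      have hFH : (H : Set G) ⊆ F k := fun g hg => Subgroup.subset_closure (Or.inl hg)
      have hkF : (k : G) ∈ F k := Subgroup.subset_closure (Or.inr rfl)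
      -- a point of the coset in the right layer
      have hs0 : ∃ f ∈ F k, ρ x (if s = true then f * y else y * f) = max (ρ x k) (ρ x y)
          ∧ f ∈ K := by
        by_cases hcase : ρ x k ≤ ρ x y
        · refine ⟨1, Subgroup.one_mem _, ?_, K.one_mem⟩
          simp [max_eq_right hcase]
        · push Not at hcase
          refine ⟨k, hkF, ?_, k.2⟩
          rw [max_eq_left hcase.le]
          have hyN : y ∈ N x (ρ x k) := hNmono x _ _ hcase.le (hρ1 x y hyLx)
          split_ifs with hs
          · apply le_antisymm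
            · exact hρ2 x _ _ ((L x).mul_mem hkLx hyLx) ((N x _).mul_mem (hρ1 x k hkLx) hyN)
            · by_contra hlt
              push Not at hlt
              have h1 : (k : G) * y ∈ N x (max (ρ x (k * y)) (ρ x y)) :=
                hNmono x _ _ (le_max_left _ _) (hρ1 x _ ((L x).mul_mem hkLx hyLx))
              have h2 : y ∈ N x (max (ρ x (k * y)) (ρ x y)) :=
                hNmono x _ _ (le_max_right _ _) (hρ1 x _ hyLx)
              have h3 : (k : G) ∈ N x (max (ρ x (k * y)) (ρ x y)) := by
                have := (N x _).mul_mem h1 ((N x _).inv_mem h2)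
                simpa using this
              have h4 := hρ2 x _ _ hkLx h3
              exact absurd h4 (not_le.2 (max_lt hlt hcase))
          · apply le_antisymm
            · exact hρ2 x _ _ ((L x).mul_mem hyLx hkLx) ((N x _).mul_mem hyN (hρ1 x k hkLx))
            · by_contra hlt
              push Not at hlt
              have h1 : y * (k : G) ∈ N x (max (ρ x (y * k)) (ρ x y)) :=
                hNmono x _ _ (le_max_left _ _) (hρ1 x _ ((L x).mul_mem hyLx hkLx))
              have h2 : y ∈ N x (max (ρ x (y * k)) (ρ x y)) :=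
                hNmono x _ _ (le_max_right _ _) (hρ1 x _ hyLx)
              have h3 : (k : G) ∈ N x (max (ρ x (y * k)) (ρ x y)) := by
                have := (N x _).mul_mem ((N x _).inv_mem h2) h1
                simpa using this
              have h4 := hρ2 x _ _ hkLx h3
              exact absurd h4 (not_le.2 (max_lt hlt hcase))
      obtain ⟨f, hfF, hfρ, hfK⟩ := hs0
      rw [← cardH]
      cases s
      · simp only [Bool.false_eq_true, if_false] at hfρ
        refine Cardinal.mk_le_of_injective (f := fun h : H => (⟨y * f * h, ?_, ?_⟩ : S (k, y, false))) ?_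
        · simp only [cs, Bool.false_eq_true, if_false]
          exact ⟨f * h, Subgroup.mul_mem _ hfF (hFH h.2), by group⟩
        · have hzz : z (y * f * h) = x := by
            have := hz1 y 1 (f * h) K.one_mem (K.mul_mem hfK (hHK h.2))
            rw [← mul_assoc] at this
            simpa using this
          have hyf : y * f ∈ L x := (L x).mul_mem hyLx (hKL x hfK)
          have hyfh : y * f * h ∈ L x := (L x).mul_mem hyf (hKL x (hHK h.2))
          have hρh : ρ x (y * f * h) = ρ x (y * f) := by
            apply le_antisymm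
            · exact hρ2 x _ _ hyfh ((N x _).mul_mem (hρ1 x _ hyf) (hHN x _ h.2))
            · refine hρ2 x _ _ hyf ?_
              have := (N x _).mul_mem (hρ1 x _ hyfh) ((N x _).inv_mem (hHN x _ h.2))
              simpa using this
          simp only [b', hh, hzz, hρh, hfρ]
        · intro h1 h2 h12
          have := congrArg Subtype.val h12
          simp only at this
          exact Subtype.ext (mul_left_cancel this)
      · simp only [if_true] at hfρ
        refine Cardinal.mk_le_of_injective (f := fun h : H => (⟨h * (f * y), ?_, ?_⟩ : S (k, y, true))) ?_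
        · simp only [cs, if_true]
          exact ⟨h * f, Subgroup.mul_mem _ (hFH h.2) hfF, by group⟩
        · have hzz : z (h * (f * y)) = x := by
            have := hz1 y (h * f) 1 (K.mul_mem (hHK h.2) hfK) K.one_mem
            rw [mul_one, mul_assoc] at this
            exact this
          have hyf : f * y ∈ L x := (L x).mul_mem (hKL x hfK) hyLx
          have hyfh : h * (f * y) ∈ L x := (L x).mul_mem (hKL x (hHK h.2)) hyf
          have hρh : ρ x (h * (f * y)) = ρ x (f * y) := by
            apply le_antisymm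
            · exact hρ2 x _ _ hyfh ((N x _).mul_mem (hHN x _ h.2) (hρ1 x _ hyf))
            · refine hρ2 x _ _ hyf ?_
              have := (N x _).mul_mem ((N x _).inv_mem (hHN x _ h.2)) (hρ1 x _ hyfh)
              simpa using this
          simp only [b', hh, hzz, hρh, hfρ]
        · intro h1 h2 h12
          have := congrArg Subtype.val h12
          simp only at this
          exact Subtype.ext (mul_right_cancel this)
    exact up.trans low)
  refine ⟨K, F, fun k => {g | ∃ y s, g = r (k, y, s)}, cardK, ?_, ?_, ?_⟩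
  · intro k
    rw [Order.lt_succ_iff]
    apply card_closure_le _ lam hl
    refine (mk_union_le _ _).trans ?_
    exact (add_le_add cardH.le ((mk_singleton _).le.trans (one_le_aleph0.trans hl))).trans
      (add_eq_self hl).le
  · rintro i j x ⟨y, s, rfl⟩ ⟨y', s', h⟩
    have := hr1 h
    exact congrArg Prod.fst this
  · intro k s y
    exact ⟨r (k, y, s), (hr2 (k, y, s)).1, y, s, rfl⟩

end Pool.Agent.Helper12.LargePart
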