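import Pool.Agent.Helper12.G3

set_option autoImplicit false
open scoped Pointwise Cardinal
open Cardinal Set

namespace Pool.Agent.Helper12.LargePart

theorem cs_sub {G : Type} [Group G] (s : Bool) (H : Subgroup G) (y g : G)
    (hg : g ∈ cs s (H : Set G) y) : ∃ a ∈ H, ∃ b ∈ H, g = a * y * b := by
  cases s
  · simp only [cs, Bool.false_eq_true, if_false] at hg
    obtain ⟨f, hf, rfl⟩ := hg
    exact ⟨1, H.one_mem, f, hf, by simp⟩
  · simp only [cs, if_true] at hg
    obtain ⟨f, hf, rfl⟩ := hg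
    exact ⟨f, hf, 1, H.one_mem, by simp⟩

/-- Sparse but large sets. -/
theorem exists_sparse {G : Type} [Group G] (ν : Cardinal.{0}) (hν : ℵ₀ ≤ ν)
    (M H : Subgroup G) (hMH : M ≤ H) (hM : #M ≤ ν) (hH : #H = Order.succ ν) :
    ∃ P : Set G, (∀ (s : Bool) y, Order.succ ν ≤ #{g : G | g ∈ cs s (H : Set G) y ∧ g ∈ P}) ∧
      (∀ g g', g ∈ P → g' ∈ P → (∃ a ∈ M, ∃ b ∈ M, g' = a * g * b) → g = g') := by
  classical
  have hs : ℵ₀ ≤ Order.succ ν := hν.trans (Order.le_succ ν)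
  obtain ⟨zM, hM1, hM2⟩ := exists_rep M
  obtain ⟨zH, hH1, hH2⟩ := exists_rep H
  have hHM : ∀ g, zH (zM g) = zH g := by
    intro g
    obtain ⟨a, ha, b, hb, h⟩ := hM2 g
    conv_rhs => rw [h]
    rw [hH1 _ _ _ (hMH ha) (hMH hb)]
  let S : G × H × Bool → Set G := fun q => zM '' (cs q.2.2 (H : Set G) q.1)
  obtain ⟨r, hr1, hr2⟩ := blockGreedy S (fun q => zH q.1) zH (by
    rintro ⟨y, ξ, s⟩ x ⟨g, hg, rfl⟩
    obtain ⟨a, ha, b, hb, rfl⟩ := cs_sub s H y g hg
    rw [hHM]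
    exact hH1 _ _ _ ha hb) (by
    rintro ⟨y, ξ, s⟩
    have up : #{q' : G × H × Bool // zH q'.1 = zH y} ≤ Order.succ ν := by
      choose a ha b hb hab using hH2
      have hinj : #{q' : G × H × Bool // zH q'.1 = zH y} ≤ #(H × H × H × Bool) := by
        refine Cardinal.mk_le_of_injective (f := fun q' =>
          (⟨a q'.1.1, ha _⟩, ⟨b q'.1.1, hb _⟩, q'.1.2.1, q'.1.2.2)) ?_
        rintro ⟨⟨y1, h1, s1⟩, e1⟩ ⟨⟨y2, h2, s2⟩, e2⟩ h12
        simp only [Prod.mk.injEq, Subtype.mk.injEq] at h12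
        obtain ⟨h3, h4, h5, h6⟩ := h12
        have hy : y1 = y2 := by
          rw [hab y1, hab y2, h3, h4]
          simp only at e1 e2
          rw [e1, e2]
        subst hy h5 h6
        rfl
      refine hinj.trans ?_
      rw [mk_prod, mk_prod, mk_prod, lift_id, lift_id, lift_id, lift_id, hH]
      calc Order.succ ν * (Order.succ ν * (Order.succ ν * #Bool))
          ≤ Order.succ ν * (Order.succ ν * (Order.succ ν * Order.succ ν)) :=
            mul_le_mul' le_rfl (mul_le_mul' le_rfl (mul_le_mul' le_rfl (le_trans (by simp) hs)))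
        _ = Order.succ ν := by rw [mul_eq_self hs, mul_eq_self hs, mul_eq_self hs]
    refine up.trans ?_
    change Order.succ ν ≤ #(zM '' (cs s (H : Set G) y))
    rw [Order.succ_le_iff]
    by_contra hcon
    push Not at hcon
    have h1 : #(cs s (H : Set G) y) ≤ #(zM '' (cs s (H : Set G) y)) * ν := by
      refine Cardinal.mk_le_mk_mul_of_mk_preimage_le
        (fun g : cs s (H : Set G) y => (⟨zM g, g, g.2, rfl⟩ : zM '' (cs s (H : Set G) y))) ?_
      rintro ⟨x, hx⟩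
      choose a ha b hb hab using hM2
      have hinj : #((fun g : cs s (H : Set G) y =>
          (⟨zM g, g, g.2, rfl⟩ : zM '' (cs s (H : Set G) y))) ⁻¹' {⟨x, hx⟩}) ≤ #(M × M) := by
        refine Cardinal.mk_le_of_injective (f := fun q' =>
          (⟨a q'.1, ha _⟩, ⟨b q'.1, hb _⟩)) ?_
        rintro ⟨g1, e1⟩ ⟨g2, e2⟩ h12
        simp only [Prod.mk.injEq, Subtype.mk.injEq] at h12
        obtain ⟨h3, h4⟩ := h12
        have e1' : zM g1 = x := congrArg Subtype.val (mem_singleton_iff.1 e1)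
        have e2' : zM g2 = x := congrArg Subtype.val (mem_singleton_iff.1 e2)
        have : (g1 : G) = g2 := by
          rw [hab g1, hab g2, h3, h4, e1', e2']
        exact Subtype.ext (Subtype.ext this)
      refine hinj.trans ?_
      rw [mk_prod, lift_id]
      exact (mul_le_mul' hM hM).trans (mul_eq_self hν).le
    rw [mk_cs] at h1
    have h2 : #(H : Set G) = Order.succ ν := hH
    rw [h2] at h1
    have h3 : Order.succ ν ≤ ν := h1.trans ((mul_le_mul' hcon le_rfl).trans (mul_eq_self hν).le)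
    exact absurd h3 (not_le.2 (Order.lt_succ ν)))
  choose p hp1 hp2 using hr2
  refine ⟨range p, ?_, ?_⟩
  · intro s y
    rw [← hH]
    refine Cardinal.mk_le_of_injective (f := fun ξ : H =>
      (⟨p (y, ξ, s), hp1 (y, ξ, s), ⟨(y, ξ, s), rfl⟩⟩ :
        {g : G | g ∈ cs s (H : Set G) y ∧ g ∈ range p})) ?_
    intro ξ ξ' h
    have h1 : p (y, ξ, s) = p (y, ξ', s) := congrArg Subtype.val h
    have h2 : r (y, ξ, s) = r (y, ξ', s) := by rw [← hp2, ← hp2, h1]
    have := hr1 h2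
    simpa using this
  · rintro _ _ ⟨q, rfl⟩ ⟨q', rfl⟩ ⟨a, ha, b, hb, h⟩
    have h2 : r q' = r q := by
      rw [← hp2, ← hp2, h, hM1 _ _ _ ha hb]
    rw [hr1 h2]

theorem limit_case {G : Type} [Group G] (κ : Cardinal.{0}) (hκ : ℵ₀ < κ)
    (hlim : ∀ μ < κ, Order.succ μ < κ) (hG : κ ≤ #G) :
    ∃ (ι : Type) (F : ι → Set G) (A : ι → Set G), #ι = κ ∧
      (∀ i, #(F i) < κ) ∧ (∀ i j x, x ∈ A i → x ∈ A j → i = j) ∧
      (∀ i (s : Bool) y, ∃ g, g ∈ cs s (F i) y ∧ g ∈ A i) := by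
  classical
  have hsucc : ∀ ν : Cardinal.{0}, ℵ₀ ≤ ν → ℵ₀ ≤ Order.succ ν :=
    fun ν hν => hν.trans (Order.le_succ ν)
  obtain ⟨e⟩ : Nonempty (κ.ord.ToType ↪ G) := by
    have : #(κ.ord.ToType) ≤ #G := by rw [mk_ord_toType]; exact hG
    exact this
  let o : κ.ord.ToType → Ordinal.{0} := fun k => (Ordinal.ToType.mk.symm k : Set.Iio κ.ord)
  have ho : ∀ k, o k < κ.ord := fun k => (Ordinal.ToType.mk.symm k : Set.Iio κ.ord).2
  have hoinj : Function.Injective o := by
    intro k k' h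
    exact Ordinal.ToType.mk.symm.injective (Subtype.ext h)
  let T : Cardinal.{0} → Set κ.ord.ToType := fun μ => {k | o k < μ.ord}
  have hT1 : ∀ μ, #(T μ) ≤ μ := by
    intro μ
    have h1 : Cardinal.lift.{1} #(T μ) ≤ Cardinal.lift.{0} #(Set.Iio μ.ord) := by
      rw [Cardinal.lift_mk_le']
      refine ⟨⟨fun k => ⟨o k, k.2⟩, fun k k' h => ?_⟩⟩
      have h' := congrArg Subtype.val h
      exact Subtype.ext (hoinj h')
    rw [Cardinal.mk_Iio_ordinal, card_ord] at h1
    simpa using h1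
  have hT2 : ∀ μ, μ ≤ κ → μ ≤ #(T μ) := by
    intro μ hμ
    have hmono : μ.ord ≤ κ.ord := ord_le_ord.2 hμ
    have h1 : Cardinal.lift.{0} #(Set.Iio μ.ord) ≤ Cardinal.lift.{1} #(T μ) := by
      rw [Cardinal.lift_mk_le']
      refine ⟨⟨fun x => ⟨Ordinal.ToType.mk ⟨x.1, lt_of_lt_of_le x.2 hmono⟩, ?_⟩, ?_⟩⟩
      · change o (Ordinal.ToType.mk ⟨x.1, lt_of_lt_of_le x.2 hmono⟩) < μ.ord
        simp only [o, OrderIso.symm_apply_apply]
        exact x.2
      · intro x x' h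
        have h2 := Ordinal.ToType.mk.injective (congrArg Subtype.val h)
        have h3 := congrArg Subtype.val h2
        exact Subtype.ext h3
    rw [Cardinal.mk_Iio_ordinal, card_ord] at h1
    simpa using h1
  let K : Cardinal.{0} → Subgroup G := fun μ => Subgroup.closure (e '' T μ)
  have hKmono : ∀ μ μ', μ ≤ μ' → K μ ≤ K μ' := by
    intro μ μ' h
    apply Subgroup.closure_mono
    apply image_mono
    intro k hk
    exact lt_of_lt_of_le (show o k < μ.ord from hk) (ord_le_ord.2 h)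
  have hK1 : ∀ μ, ℵ₀ ≤ μ → #(K μ) ≤ μ := by
    intro μ hμ
    exact card_closure_le _ μ hμ (mk_image_le.trans (hT1 μ))
  have hK2 : ∀ μ, μ ≤ κ → μ ≤ #(K μ) := by
    intro μ hμ
    refine (hT2 μ hμ).trans ?_
    rw [← Cardinal.mk_image_eq e.injective]
    exact Cardinal.mk_le_mk_of_subset Subgroup.subset_closure
  let H : Cardinal.{0} → Subgroup G := fun ν => K (Order.succ ν)
  have hHmono : ∀ μ μ', μ ≤ μ' → H μ ≤ H μ' := fun μ μ' h =>
    hKmono _ _ (Order.succ_le_succ h)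
  have cardH : ∀ ν, ℵ₀ ≤ ν → ν < κ → #(H ν) = Order.succ ν := fun ν h1 h2 =>
    le_antisymm (hK1 _ (hsucc ν h1)) (hK2 _ (hlim ν h2).le)
  have hHK : ∀ j i, j < i → H j ≤ K i := fun j i h => hKmono _ _ (Order.succ_le_of_lt h)
  -- sparse sets
  have hP : ∀ ν, ∃ P : Set G, ℵ₀ ≤ ν → ν < κ →
      (∀ (s : Bool) y, Order.succ ν ≤ #{g : G | g ∈ cs s (H ν : Set G) y ∧ g ∈ P}) ∧
      (∀ g g', g ∈ P → g' ∈ P → (∃ a ∈ K ν, ∃ b ∈ K ν, g' = a * g * b) → g = g') := by
    intro ν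
    by_cases h : ℵ₀ ≤ ν ∧ ν < κ
    · obtain ⟨P, h1, h2⟩ := exists_sparse ν h.1 (K ν) (H ν) (hKmono _ _ (Order.le_succ ν))
        (hK1 ν h.1) (cardH ν h.1 h.2)
      exact ⟨P, fun _ _ => ⟨h1, h2⟩⟩
    · exact ⟨∅, fun h1 h2 => absurd ⟨h1, h2⟩ h⟩
  choose P hP using hP
  -- the main recursion
  have main : ∀ β : Cardinal.{0}, β ≤ κ → ∃ c : G → Cardinal.{0}, ∀ j, ℵ₀ ≤ j → j < β →
      ∀ (s : Bool) y, Order.succ j ≤ #{g : G | g ∈ cs s (H j : Set G) y ∧ c g = j} := by
    intro β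
    induction β using WellFoundedLT.induction with
    | ind β ih =>
    intro hβκ
    by_cases hβ : ℵ₀ < β
    swap
    · exact ⟨fun _ => 0, fun j h1 h2 => absurd (lt_of_le_of_lt h1 h2) hβ⟩
    have ih' : ∀ i, ∃ c : G → Cardinal.{0}, i < β → ∀ j, ℵ₀ ≤ j → j < i →
      ∀ (s : Bool) y, Order.succ j ≤ #{g : G | g ∈ cs s (H j : Set G) y ∧ c g = j} := by
      intro i
      by_cases hi : i < β
      · obtain ⟨c, hc⟩ := ih i hi (hi.le.trans hβκ)
        exact ⟨c, fun _ => hc⟩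
      · exact ⟨fun _ => 0, fun h => absurd h hi⟩
    choose cc hcc using ih'
    let U : Subgroup G :=
      { carrier := {g | ∃ j, ℵ₀ ≤ j ∧ j < β ∧ g ∈ H j}
        one_mem' := ⟨ℵ₀, le_rfl, hβ, (H ℵ₀).one_mem⟩
        mul_mem' := by
          rintro a b ⟨j, h1, h2, h3⟩ ⟨j', h1', h2', h3'⟩
          exact ⟨max j j', h1.trans (le_max_left _ _), max_lt h2 h2',
            (H _).mul_mem (hHmono _ _ (le_max_left _ _) h3) (hHmono _ _ (le_max_right _ _) h3')⟩
        inv_mem' := by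
          rintro a ⟨j, h1, h2, h3⟩
          exact ⟨j, h1, h2, (H j).inv_mem h3⟩ }
    have hHU : ∀ j, ℵ₀ ≤ j → j < β → ∀ g ∈ H j, g ∈ U := fun j h1 h2 g hg => ⟨j, h1, h2, hg⟩
    obtain ⟨z, hz1, hz2⟩ := exists_rep U
    let D : G → Set Cardinal.{0} := fun y =>
      {j | ℵ₀ ≤ j ∧ ∃ a ∈ H j, ∃ b ∈ H j, y = a * z y * b}
    have hDne : ∀ y, ∃ j ∈ D y, j < β := by
      intro y
      obtain ⟨a, ⟨j, h1, h2, h3⟩, b, ⟨j', h1', h2', h3'⟩, h⟩ := hz2 y
      exact ⟨max j j', ⟨h1.trans (le_max_left _ _), a, hHmono _ _ (le_max_left _ _) h3, b,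
        hHmono _ _ (le_max_right _ _) h3', h⟩, max_lt h2 h2'⟩
    have hDne' : ∀ y, (D y).Nonempty := fun y => by
      obtain ⟨j, hj, -⟩ := hDne y
      exact ⟨j, hj⟩
    let ii : G → Cardinal.{0} := fun y => sInf (D y)
    have hiD : ∀ y, ii y ∈ D y := fun y => csInf_mem (hDne' y)
    have hile : ∀ y j, j ∈ D y → ii y ≤ j := fun y j hj => csInf_le' hj
    have hiβ : ∀ y, ii y < β := by
      intro y
      obtain ⟨j, hj, hjβ⟩ := hDne y
      exact lt_of_le_of_lt (hile y j hj) hjβ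
    have hDmono : ∀ y i j, i ∈ D y → i ≤ j → j ∈ D y := by
      rintro y i j ⟨h0, a, ha, b, hb, h⟩ hij
      exact ⟨h0.trans hij, a, hHmono _ _ hij ha, b, hHmono _ _ hij hb, h⟩
    let c : G → Cardinal.{0} := fun g => if g ∈ P (ii g) then ii g else cc (ii g) g
    refine ⟨c, ?_⟩
    intro j hj1 hj2 s y
    -- `z` is constant on the coset
    have hzc : ∀ g ∈ cs s (H j : Set G) y, z g = z y := by
      intro g hg
      obtain ⟨a, ha, b, hb, rfl⟩ := cs_sub s (H j) y g hg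
      exact hz1 _ _ _ (hHU j hj1 hj2 a ha) (hHU j hj1 hj2 b hb)
    have hcy : ∀ g ∈ cs s (H j : Set G) y, ∀ m, j ≤ m → (m ∈ D g ↔ m ∈ D y) := by
      intro g hg m hm
      have hzg := hzc g hg
      obtain ⟨a, ha, b, hb, hgab⟩ := cs_sub s (H j) y g hg
      have ha' := hHmono _ _ hm ha
      have hb' := hHmono _ _ hm hb
      constructor
      · rintro ⟨h0, a1, ha1, b1, hb1, h⟩
        refine ⟨h0, a⁻¹ * a1, (H m).mul_mem ((H m).inv_mem ha') ha1, b1 * b⁻¹,
          (H m).mul_mem hb1 ((H m).inv_mem hb'), ?_⟩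
        rw [hzg] at h
        have : y = a⁻¹ * g * b⁻¹ := by rw [hgab]; group
        calc y = a⁻¹ * g * b⁻¹ := this
          _ = a⁻¹ * (a1 * z y * b1) * b⁻¹ := by rw [← h]
          _ = _ := by simp only [mul_assoc]
      · rintro ⟨h0, a1, ha1, b1, hb1, h⟩
        refine ⟨h0, a * a1, (H m).mul_mem ha' ha1, b1 * b, (H m).mul_mem hb1 hb', ?_⟩
        rw [hzg, hgab]
        conv_lhs => rw [h]
        simp only [mul_assoc]
    rcases lt_or_ge j (ii y) with hlt | hge
    · -- `j < i`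
      have hig : ∀ g ∈ cs s (H j : Set G) y, ii g = ii y := by
        intro g hg
        apply le_antisymm
        · exact hile g _ ((hcy g hg _ hlt.le).2 (hiD y))
        · by_contra hcon
          push Not at hcon
          have h1 : max (ii g) j ∈ D y :=
            (hcy g hg _ (le_max_right _ _)).1 (hDmono g _ _ (hiD g) (le_max_left _ _))
          exact absurd (hile y _ h1) (not_le.2 (max_lt hcon hlt))
      have hiℵ : ℵ₀ ≤ ii y := (hiD y).1
      have hiκ : ii y < κ := lt_of_lt_of_le (hiβ y) hβκ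
      have hA := hcc (ii y) (hiβ y) j hj1 hlt s y
      have hsub : {g : G | g ∈ cs s (H j : Set G) y ∧ cc (ii y) g = j} ⊆
          {g : G | g ∈ cs s (H j : Set G) y ∧ c g = j} ∪
          {g : G | g ∈ cs s (H j : Set G) y ∧ g ∈ P (ii y)} := by
        rintro g ⟨hg1, hg2⟩
        by_cases hgP : g ∈ P (ii y)
        · exact Or.inr ⟨hg1, hgP⟩
        · left
          refine ⟨hg1, ?_⟩
          simp only [c, hig g hg1, if_neg hgP, hg2]
      have hsing : #{g : G | g ∈ cs s (H j : Set G) y ∧ g ∈ P (ii y)} ≤ 1 := by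
        rw [Cardinal.le_one_iff_subsingleton]
        constructor
        rintro ⟨g, hg1, hg2⟩ ⟨g', hg1', hg2'⟩
        apply Subtype.ext
        apply ((hP (ii y)) hiℵ hiκ).2 g g' hg2 hg2'
        obtain ⟨a, ha, b, hb, h⟩ := cs_sub s (H j) y g hg1
        obtain ⟨a', ha', b', hb', h'⟩ := cs_sub s (H j) y g' hg1'
        have hle := hHK j (ii y) hlt
        refine ⟨a' * a⁻¹, (K _).mul_mem (hle ha') ((K _).inv_mem (hle ha)), b⁻¹ * b',
          (K _).mul_mem ((K _).inv_mem (hle hb)) (hle hb'), ?_⟩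
        rw [h, h']
        group
      by_contra hcon
      push Not at hcon
      have h1 : #{g : G | g ∈ cs s (H j : Set G) y ∧ c g = j} ≤ j := Order.lt_succ_iff.1 hcon
      have h2 := hA.trans ((Cardinal.mk_le_mk_of_subset hsub).trans ((mk_union_le _ _).trans
        (add_le_add h1 (hsing.trans (one_le_aleph0.trans hj1)))))
      rw [add_eq_self hj1] at h2
      exact absurd h2 (not_le.2 (Order.lt_succ j))
    · -- `i ≤ j`
      have hjκ : j < κ := lt_of_lt_of_le hj2 hβκ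
      have hA := ((hP j) hj1 hjκ).1 s y
      have hjD : j ∈ D y := hDmono y _ _ (hiD y) hge
      have hsub : {g : G | g ∈ cs s (H j : Set G) y ∧ g ∈ P j} ⊆
          {g : G | g ∈ cs s (H j : Set G) y ∧ c g = j} ∪
          ((fun p : K j × K j => (p.1 : G) * z y * (p.2 : G)) '' univ) := by
        rintro g ⟨hg1, hg2⟩
        have hgD : j ∈ D g := (hcy g hg1 j le_rfl).2 hjD
        rcases eq_or_lt_of_le (hile g j hgD) with h | h
        · left
          refine ⟨hg1, ?_⟩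
          simp only [c, h, if_pos hg2]
        · right
          obtain ⟨h0, a, ha, b, hb, hab⟩ := hiD g
          rw [hzc g hg1] at hab
          exact ⟨(⟨a, hHK _ _ h ha⟩, ⟨b, hHK _ _ h hb⟩), mem_univ _, hab.symm⟩
      have hsmall : #((fun p : K j × K j => (p.1 : G) * z y * (p.2 : G)) '' univ) ≤ j := by
        refine mk_image_le.trans ?_
        rw [mk_univ, mk_prod, lift_id]
        exact (mul_le_mul' (hK1 j hj1) (hK1 j hj1)).trans (mul_eq_self hj1).le
      by_contra hcon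
      push Not at hcon
      have h1 : #{g : G | g ∈ cs s (H j : Set G) y ∧ c g = j} ≤ j := Order.lt_succ_iff.1 hcon
      have h2 := hA.trans ((Cardinal.mk_le_mk_of_subset hsub).trans ((mk_union_le _ _).trans
        (add_le_add h1 hsmall)))
      rw [add_eq_self hj1] at h2
      exact absurd h2 (not_le.2 (Order.lt_succ j))
  obtain ⟨c, hc⟩ := main κ le_rfl
  -- refinement
  let ν : κ.ord.ToType → Cardinal.{0} := fun k => max ℵ₀ (o k).card
  have hν1 : ∀ k, ℵ₀ ≤ ν k := fun k => le_max_left _ _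
  have hν2 : ∀ k, ν k < κ := fun k => max_lt hκ (Cardinal.lt_ord.1 (ho k))
  have hνT : ∀ k, k ∈ T (Order.succ (ν k)) := by
    intro k
    change o k < (Order.succ (ν k)).ord
    rw [Cardinal.lt_ord, Order.lt_succ_iff]
    exact le_max_right _ _
  have hzz : ∀ μ, ∃ z : G → G, (∀ g a b, a ∈ H μ → b ∈ H μ → z (a * g * b) = z g) ∧
      (∀ g, ∃ a ∈ H μ, ∃ b ∈ H μ, g = a * z g * b) := fun μ => exists_rep (H μ)
  choose zz hzz1 hzz2 using hzz
  let Q := κ.ord.ToType × G × Bool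
  let S : Q → Set G := fun q => {g | g ∈ cs q.2.2 (H (ν q.1) : Set G) q.2.1 ∧ c g = ν q.1}
  let home : Q → Cardinal.{0} × G := fun q => (ν q.1, zz (ν q.1) q.2.1)
  let b' : G → Cardinal.{0} × G := fun g => (c g, zz (c g) g)
  obtain ⟨r, hr1, hr2⟩ := blockGreedy S home b' (by
    rintro ⟨k, y, s⟩ g ⟨hg1, hg2⟩
    obtain ⟨a, ha, b, hb, hab⟩ := cs_sub s _ y g hg1
    simp only at hg2
    simp only [b', home, hg2, Prod.mk.injEq, true_and]
    rw [hab]
    exact hzz1 _ _ _ _ ha hb) (by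
    rintro ⟨k, y, s⟩
    refine le_trans ?_ (hc (ν k) (hν1 k) (hν2 k) s y)
    set n := ν k with hn
    have hsn := hsucc n (hν1 k)
    have hmem : ∀ q' : {q' : Q // home q' = home (k, y, s)},
        q'.1.1 ∈ T (Order.succ n) := by
      rintro ⟨⟨k', y', s'⟩, hq⟩
      simp only [home, Prod.mk.injEq] at hq
      have := hνT k'
      rw [hq.1] at this
      exact this
    choose a ha b hb hab using (hzz2 n)
    have hinj : #{q' : Q // home q' = home (k, y, s)} ≤
        #(T (Order.succ n) × H n × H n × Bool) := by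
      refine Cardinal.mk_le_of_injective (f := fun q' =>
        (⟨q'.1.1, hmem q'⟩, ⟨a q'.1.2.1, ha _⟩, ⟨b q'.1.2.1, hb _⟩, q'.1.2.2)) ?_
      rintro ⟨⟨k1, y1, s1⟩, e1⟩ ⟨⟨k2, y2, s2⟩, e2⟩ h12
      simp only [Prod.mk.injEq, Subtype.mk.injEq] at h12
      obtain ⟨h3, h4, h5, h6⟩ := h12
      simp only [home, Prod.mk.injEq] at e1 e2
      have hy : y1 = y2 := by
        rw [hab y1, hab y2, h4, h5]
        have e11 := e1.2
        have e22 := e2.2
        rw [e1.1] at e11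
        rw [e2.1] at e22
        rw [hn, e11, e22]
      subst h3 hy h6
      rfl
    refine hinj.trans ?_
    rw [mk_prod, mk_prod, mk_prod, lift_id, lift_id, lift_id, lift_id, lift_id,
      cardH n (hν1 k) (hν2 k)]
    calc #(T (Order.succ n)) * (Order.succ n * (Order.succ n * #Bool))
        ≤ Order.succ n * (Order.succ n * (Order.succ n * Order.succ n)) :=
          mul_le_mul' (hT1 _) (mul_le_mul' le_rfl (mul_le_mul' le_rfl (le_trans (by simp) hsn)))
      _ = Order.succ n := by rw [mul_eq_self hsn, mul_eq_self hsn, mul_eq_self hsn])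
  refine ⟨κ.ord.ToType, fun k => (H (ν k) : Set G), fun k => {g | ∃ y s, g = r (k, y, s)},
    mk_ord_toType κ, ?_, ?_, ?_⟩
  · intro k
    have : #(H (ν k) : Set G) = Order.succ (ν k) := cardH _ (hν1 k) (hν2 k)
    rw [this]
    exact hlim _ (hν2 k)
  · rintro i j x ⟨y, s, rfl⟩ ⟨y', s', h⟩
    have := hr1 h
    exact congrArg Prod.fst this
  · intro k s y
    exact ⟨r (k, y, s), (hr2 (k, y, s)).1, y, s, rfl⟩

end Pool.Agent.Helper12.LargePart
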