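import Pool.Agent.Helper12.G4

set_option autoImplicit false
open scoped Pointwise Cardinal
open Cardinal Set

namespace Pool.Agent.Helper12.LargePart

theorem exists_maximal_disjoint {G : Type} [Group G] (s : Bool) (E : Set G) (hE : E.Nonempty) :
    ∃ Y : Set G, (∀ y ∈ Y, ∀ y' ∈ Y, ∀ g, g ∈ cs s E y → g ∈ cs s E y' → y = y') ∧
      ∀ z, ∃ y ∈ Y, ∃ g, g ∈ cs s E z ∧ g ∈ cs s E y := by
  let 𝒮 : Set (Set G) := {Y | ∀ y ∈ Y, ∀ y' ∈ Y, ∀ g, g ∈ cs s E y → g ∈ cs s E y' → y = y'}
  obtain ⟨Y, hY⟩ := zorn_subset 𝒮 (by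
    intro c hc hchain
    refine ⟨⋃₀ c, ?_, fun a ha => subset_sUnion_of_mem ha⟩
    rintro y ⟨Y1, hY1, hy⟩ y' ⟨Y2, hY2, hy'⟩ g hg hg'
    rcases hchain.total hY1 hY2 with h | h
    · exact hc hY2 y (h hy) y' hy' g hg hg'
    · exact hc hY1 y hy y' (h hy') g hg hg')
  refine ⟨Y, hY.1, ?_⟩
  intro z
  by_contra hcon
  push Not at hcon
  have hz : insert z Y ∈ 𝒮 := by
    rintro y (rfl | hy) y' (rfl | hy') g hg hg'
    · rfl
    · exact absurd hg' (hcon y' hy' g hg)
    · exact absurd hg (hcon y hy g hg')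
    · exact hY.1 y hy y' hy' g hg hg'
  have hzY : z ∈ Y := hY.2 hz (subset_insert z Y) (mem_insert z Y)
  have hne : (cs s E z).Nonempty := by
    unfold cs
    split_ifs
    · exact hE.image _
    · exact hE.image _
  obtain ⟨g, hg⟩ := hne
  exact hcon z hzY g hg hg

theorem weight_sum (N : ℕ) :
    ∑ p ∈ Finset.range N ×ˢ (Finset.univ : Finset Bool), (1 / 2 ^ (p.1 + 2) : ℚ) ≤ 1 := by
  rw [Finset.sum_product]
  have h : ∀ N : ℕ, ∑ x ∈ Finset.range N, ∑ _y : Bool, (1 / 2 ^ (x + 2) : ℚ) = 1 - 1 / 2 ^ N := by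
    intro N
    induction N with
    | zero => simp
    | succ n ih =>
      rw [Finset.sum_range_succ, ih]
      simp only [Finset.sum_const, Finset.card_univ, Fintype.card_bool, nsmul_eq_mul]
      have : (2 : ℚ) ^ n ≠ 0 := by positivity
      field_simp
      ring
  rw [h N]
  have : (0 : ℚ) ≤ 1 / 2 ^ N := by positivity
  linarith

theorem aleph0_case {G : Type} [Group G] [Infinite G] :
    ∃ (ι : Type) (F : ι → Set G) (A : ι → Set G), #ι = ℵ₀ ∧
      (∀ i, #(F i) < ℵ₀) ∧ (∀ i j x, x ∈ A i → x ∈ A j → i = j) ∧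
      (∀ i (s : Bool) y, ∃ g, g ∈ cs s (F i) y ∧ g ∈ A i) := by
  classical
  have hE : ∀ n : ℕ, ∃ E : Finset G, E.card = 2 ^ (n + 2) := fun n =>
    Infinite.exists_subset_card_eq G _
  choose E hE using hE
  have hEne : ∀ n, (E n : Set G).Nonempty := by
    intro n
    have : (E n).Nonempty := by
      rw [← Finset.card_pos, hE]; positivity
    exact this
  have hY : ∀ (n : ℕ) (s : Bool), ∃ Y : Set G,
      (∀ y ∈ Y, ∀ y' ∈ Y, ∀ g, g ∈ cs s (E n : Set G) y → g ∈ cs s (E n : Set G) y' → y = y') ∧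
      ∀ z, ∃ y ∈ Y, ∃ g, g ∈ cs s (E n : Set G) z ∧ g ∈ cs s (E n : Set G) y :=
    fun n s => exists_maximal_disjoint s _ (hEne n)
  choose Y hY1 hY2 using hY
  let Q := {q : ℕ × Bool × G // q.2.2 ∈ Y q.1 q.2.1}
  let fs : Bool → Finset G → G → Finset G := fun s E y =>
    if s = true then E.image (fun f => f * y) else E.image (fun f => y * f)
  have hfs : ∀ s (E : Finset G) y g, g ∈ fs s E y ↔ g ∈ cs s (E : Set G) y := by
    intro s E y g
    simp only [fs, cs]
    split_ifs <;> simp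
  have hfscard : ∀ s (E : Finset G) y, (fs s E y).card = E.card := by
    intro s E y
    simp only [fs]
    split_ifs
    · exact Finset.card_image_of_injective _ (mul_left_injective y)
    · exact Finset.card_image_of_injective _ (mul_right_injective y)
  let t : Q → Finset G := fun q => fs q.1.2.1 (E q.1.1) q.1.2.2
  have hall : ∀ s : Finset Q, s.card ≤ (s.biUnion t).card := by
    intro s
    set U := s.biUnion t with hU
    let w : ℕ × Bool → ℚ := fun p => 1 / 2 ^ (p.1 + 2)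
    let π : Q → ℕ × Bool := fun q => (q.1.1, q.1.2.1)
    have hw0 : ∀ p, 0 ≤ w p := fun p => by positivity
    have h1 : ∀ q ∈ s, (1 : ℚ) = ∑ g ∈ U, if g ∈ t q then w (π q) else 0 := by
      intro q hq
      rw [← Finset.sum_filter]
      have hfil : U.filter (fun g => g ∈ t q) = t q := by
        ext g
        simp only [Finset.mem_filter, hU, Finset.mem_biUnion]
        constructor
        · exact fun h => h.2
        · exact fun h => ⟨⟨q, hq, h⟩, h⟩
      rw [hfil, Finset.sum_const]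
      have hc : (t q).card = 2 ^ (q.1.1 + 2) := by
        simp only [t]
        rw [hfscard, hE]
      rw [hc]
      simp only [w, π, nsmul_eq_mul, Nat.cast_pow, Nat.cast_ofNat]
      have : (2 : ℚ) ^ (q.1.1 + 2) ≠ 0 := by positivity
      field_simp
    have h2 : (s.card : ℚ) = ∑ q ∈ s, ∑ g ∈ U, if g ∈ t q then w (π q) else 0 := by
      rw [← Finset.sum_congr rfl h1]
      simp
    rw [Finset.sum_comm] at h2
    have h3 : ∀ g ∈ U, (∑ q ∈ s, if g ∈ t q then w (π q) else 0) ≤ 1 := by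
      intro g _
      rw [← Finset.sum_filter]
      have hinj : Set.InjOn π (s.filter (fun q => g ∈ t q) : Finset Q) := by
        rintro ⟨⟨n, b, y⟩, hy⟩ h1 ⟨⟨n', b', y'⟩, hy'⟩ h1' hπ
        simp only [Finset.coe_filter, t, hfs] at h1 h1'
        have h1b := h1.2
        have h1b' := h1'.2
        simp only [π, Prod.mk.injEq] at hπ
        obtain ⟨rfl, rfl⟩ := hπ
        have : y = y' := hY1 n b y hy y' hy' g h1b h1b'
        subst this
        rfl
      rw [← Finset.sum_image (f := w) hinj]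
      have hsub : (s.filter (fun q => g ∈ t q)).image π ⊆
          Finset.range ((s.sup (fun q => q.1.1)) + 1) ×ˢ (Finset.univ : Finset Bool) := by
        intro p hp
        simp only [Finset.mem_image, Finset.mem_filter] at hp
        obtain ⟨q, ⟨hq, -⟩, rfl⟩ := hp
        simp only [Finset.mem_product, Finset.mem_range, Finset.mem_univ, and_true, π]
        exact Nat.lt_succ_of_le (Finset.le_sup (f := fun q : Q => q.1.1) hq)
      exact (Finset.sum_le_sum_of_subset_of_nonneg hsub (fun p _ _ => hw0 p)).trans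
        (weight_sum _)
    have h4 : (s.card : ℚ) ≤ U.card := by
      rw [h2]
      refine (Finset.sum_le_sum h3).trans ?_
      simp
    exact_mod_cast h4
  obtain ⟨r, hr1, hr2⟩ := (Finset.all_card_le_biUnion_card_iff_exists_injective t).1 hall
  refine ⟨ℕ, fun n => ((E n * (E n)⁻¹ * E n : Finset G) : Set G),
    fun n => {g | ∃ s y, ∃ h : y ∈ Y n s, g = r ⟨(n, s, y), h⟩}, mk_nat, ?_, ?_, ?_⟩
  · intro n
    exact Cardinal.lt_aleph0_of_finite _
  · rintro i j x ⟨s, y, h, rfl⟩ ⟨s', y', h', hx⟩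
    have := congrArg (fun q : Q => q.1.1) (hr1 hx)
    exact this
  · intro n s z
    obtain ⟨y, hy, g, hg1, hg2⟩ := hY2 n s z
    refine ⟨r ⟨(n, s, y), hy⟩, ?_, s, y, hy, rfl⟩
    have h := hr2 ⟨(n, s, y), hy⟩
    simp only [t] at h
    rw [hfs] at h
    cases s
    · simp only [cs, Bool.false_eq_true, if_false] at h hg1 hg2 ⊢
      obtain ⟨f, hf, hfe⟩ := h
      obtain ⟨e1, he1, h1⟩ := hg1
      obtain ⟨e2, he2, h2⟩ := hg2
      refine ⟨e1 * e2⁻¹ * f, ?_, ?_⟩
      · rw [Finset.mem_coe]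
        exact Finset.mul_mem_mul (Finset.mul_mem_mul he1 (Finset.inv_mem_inv he2)) hf
      · simp only at hfe h1 h2 ⊢
        rw [← hfe]
        have : y = z * (e1 * e2⁻¹) := by
          rw [← mul_assoc, h1, ← h2]; group
        rw [this]; group
    · simp only [cs, if_true] at h hg1 hg2 ⊢
      obtain ⟨f, hf, hfe⟩ := h
      obtain ⟨e1, he1, h1⟩ := hg1
      obtain ⟨e2, he2, h2⟩ := hg2
      refine ⟨f * e2⁻¹ * e1, ?_, ?_⟩
      · rw [Finset.mem_coe]
        exact Finset.mul_mem_mul (Finset.mul_mem_mul hf (Finset.inv_mem_inv he2)) he1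
      · simp only at hfe h1 h2 ⊢
        rw [← hfe]
        have : y = e2⁻¹ * e1 * z := by
          rw [mul_assoc, h1, ← h2]; group
        rw [this]; group

theorem all_cases (G : Type) [Group G] (hG : Infinite G) (κ : Cardinal.{0}) (h1 : ℵ₀ ≤ κ)
    (h2 : κ ≤ #G) :
    ∃ (ι : Type) (F : ι → Set G) (A : ι → Set G), #ι = κ ∧
      (∀ i, #(F i) < κ) ∧ (∀ i j x, x ∈ A i → x ∈ A j → i = j) ∧
      (∀ i (s : Bool) y, ∃ g, g ∈ cs s (F i) y ∧ g ∈ A i) := by
  rcases eq_or_lt_of_le h1 with h | h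
  · subst h
    exact aleph0_case
  · by_cases hlim : ∀ μ < κ, Order.succ μ < κ
    · exact limit_case κ h hlim h2
    · push Not at hlim
      obtain ⟨μ, hμ, hμ'⟩ := hlim
      have he : κ = Order.succ μ := le_antisymm hμ' (Order.succ_le_of_lt hμ)
      subst he
      have hμ0 : ℵ₀ ≤ μ := Order.lt_succ_iff.1 h
      exact succ_case μ hμ0 h2

end Pool.Agent.Helper12.LargePart
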